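import Pool.Agent.Helper42.TGX.GoalsD
import Pool.Agent.Helper92.TG.AsmX
import Pool.Agent.Helper92.TG.MainH
import Pool.Agent.Helper29.BL.QSN
import Pool.Agent.Helper19.TN.EndD

/-!
# Project TGX (MP_a41896_nt), part D: assembly of S_D1 and S_D2
-/

set_option autoImplicit false

open Polynomial

namespace Pool.Agent.Helper42.TGX

open WeierstrassCurve Height
open Pool.Agent.Helper29.BL Pool.Agent.Helper42.SG
open Pool.Agent.Helper60.T3 (WL zd IP)
open Pool.Agent.Helper60.TGX (S_D1 S_D2 S_EXW S_ENBC)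
open Pool.Agent.Helper42.TG (Endo RAct HTR acK)
open Pool.Agent.Helper92.TG (Dv)

noncomputable section

theorem ell_map {k k' : Type} [Field k] [Field k'] [Algebra k k'] {W : Affine k}
    (hW : W.IsElliptic) : (WL k' W).IsElliptic := by
  haveI := hW
  infer_instance

/-- two derivatives over a number field with a point of positive height -/
theorem d1_core (hQD : QD) (hHTR : HTR) {k : Type} [Field k] [NumberField k] [DecidableEq k]
    {W : Affine k} (hW : W.IsElliptic) {R : Subring k}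
    {ac : ∀ (F : Type) [Field F] [DecidableEq F] [Algebra k F],
      R →+* AddMonoid.End (WL F W).Point} (hac : RAct W R ac) (P : W.Point)
    (hP : ∀ (H : W.Point → ℝ) (c₀ : ℝ), CanH W H c₀ → 0 < H P) (a b : R)
    (ha : (a : k) ∉ Set.range (algebraMap ℚ k)) :
    ∃ (m : ℕ) (p q : ℤ), m ≠ 0 ∧ (m : k) * b = p + q * a := by
  haveI := hW
  obtain ⟨H, c₀, hH⟩ := Pool.Agent.Helper29.BL.th_can k W
  have hpos := hP H c₀ hH
  have hex : ∀ ρ : R, ∃ n : ℤ, 0 ≤ n ∧ (n = 0 → ρ = 0) ∧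
      ∀ Q : W.Point, H (acK ac ρ Q) = n * H Q := by
    intro ρ
    by_cases hρ : ρ = 0
    · refine ⟨0, le_rfl, fun _ => hρ, fun Q => ?_⟩
      rw [hρ, map_zero]
      simp [hH.quad.zero]
    · obtain ⟨n, hn, h⟩ := hHTR k W hW R ac hac H c₀ hH ρ hρ
      refine ⟨n, by positivity, fun h0 => ?_, fun Q => ?_⟩
      · exfalso
        have : n = 0 := by exact_mod_cast h0
        omega
      · rw [h Q]
        push_cast
        rfl
  choose N h0 hz hN using hex
  have hcan : ∀ {x y : ℤ}, (x : ℝ) * H P = y * H P → x = y := by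
    intro x y hxy
    exact_mod_cast mul_right_cancel₀ hpos.ne' hxy
  refine hQD k R N ?_ hz h0 ?_ ?_ a b ha
  · apply hcan
    rw [← hN, map_one]
    simp
  · intro x y
    apply hcan
    rw [← hN, map_mul]
    have e : (acK ac x * acK ac y) P = acK ac x (acK ac y P) := rfl
    rw [e, hN, hN]
    push_cast
    ring
  · intro x y
    apply hcan
    push_cast
    have e1 := hN (x + y) P
    have e2 := hN (x - y) P
    have e3 := hN x P
    have e4 := hN y P
    have h5 := hH.quad.par (acK ac x P) (acK ac y P)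
    have e5 : acK ac (x + y) P = acK ac x P + acK ac y P := by
      rw [map_add]
      rfl
    have e6 : acK ac (x - y) P = acK ac x P - acK ac y P := by
      rw [map_sub]
      rfl
    rw [e5] at e1
    rw [e6] at e2
    linear_combination h5 - e1 - e2 + 2 * e3 + 2 * e4

theorem d1 (hQD : QD) (hNT : NT) (hHTR : HTR) (hEXW : S_EXW) (hENBC : S_ENBC) : S_D1 := by
  intro k _ _ W hW ρ₁ ρ₂ r₁ r₂ h1 h2 hr
  obtain ⟨k', _, _, _, _, P, hP⟩ := hNT k W hW
  have hW' : (WL k' W).IsElliptic := ell_map hW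
  obtain ⟨-, R, ac, hac, hall⟩ := hEXW k' (WL k' W) hW'
  obtain ⟨ρ₁', h1'⟩ := hENBC k k' W ρ₁ r₁ h1
  obtain ⟨ρ₂', h2'⟩ := hENBC k k' W ρ₂ r₂ h2
  have hr' : algebraMap k k' r₁ ∉ Set.range (algebraMap ℚ k') := by
    rintro ⟨x, hx⟩
    refine hr ⟨x, (algebraMap k k').injective ?_⟩
    rw [← hx]
    simp
  obtain ⟨m, p, q, hm, h⟩ := d1_core hQD hHTR hW' hac P hP ⟨_, hall ρ₁' _ h1'⟩
    ⟨_, hall ρ₂' _ h2'⟩ hr'
  refine ⟨m, p, q, hm, (algebraMap k k').injective ?_⟩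
  simpa using h

/-- the integer combinations of derivatives are derivatives -/
theorem dv_comb (hEXW : S_EXW) {k : Type} [Field k] [CharZero k] {W : Affine k}
    (hW : W.IsElliptic) {ρ : Endo W} {r : k} (h : Dv ρ r) (p q : ℤ) :
    ∃ ρ' : Endo W, Dv ρ' ((p : k) + q * r) := by
  obtain ⟨-, R, ac, hac, hall⟩ := hEXW k W hW
  have hr : r ∈ R := hall ρ r h
  have hm : (p : k) + q * r ∈ R := R.add_mem (intCast_mem R p) (R.mul_mem (intCast_mem R q) hr)
  refine ⟨⟨fun F _ _ _ => ac F ⟨_, hm⟩, fun F F' _ _ _ _ _ _ j P => hac.nat ⟨_, hm⟩ F F' j P⟩, ?_⟩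
  intro F _ _ _ D P
  exact hac.dif ⟨_, hm⟩ F D P

theorem d2 (hD1 : S_D1) (hEXW : S_EXW) (hENBC : S_ENBC) : S_D2 := by
  intro K _ _ W hW
  by_cases hQ : ∀ (k : Type) (_ : Field k) (_ : NumberField k) (_ : Algebra K k)
      (ρ : Endo (WL k W)) (r : k), Dv ρ r → r ∈ Set.range (algebraMap ℚ k)
  · refine ⟨K, inferInstance, inferInstance, Algebra.id K, ?_⟩
    intro k j1 j2 j3 j4 j5 ρ r hr
    obtain ⟨x, hx⟩ := hQ k j1 j2 j3 ρ r hr
    have hW1 : (@WL K _ K _ (Algebra.id K) W).IsElliptic := ell_map hW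
    obtain ⟨ρ', hρ'⟩ := dv_comb hEXW hW1 Pool.Agent.Helper92.TG.dv_one x.num 0
    refine ⟨x.den, _, ρ', x.den_nz, hρ', ?_⟩
    rw [← hx]
    have h1 : (x.den : ℚ) * x = x.num := Rat.den_mul_eq_num x
    have h2 : algebraMap ℚ k ((x.den : ℚ) * x) = algebraMap ℚ k (x.num : ℚ) := by rw [h1]
    rw [map_mul] at h2
    simpa using h2
  · push Not at hQ
    obtain ⟨k₀, i1, i2, i3, ρ₀, r₀, h0, hr0⟩ := hQ
    refine ⟨k₀, i1, i2, i3, ?_⟩
    intro k _ _ _ _ _ ρ r hr
    have hW0 : (WL k₀ W).IsElliptic := ell_map hW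
    obtain ⟨ρ₁, h1⟩ := hENBC k₀ k (WL k₀ W) ρ₀ r₀ h0
    have hWk : (WL k W).IsElliptic := ell_map hW
    have hE : WL k (WL k₀ W) = WL k W := by
      have h1 : (WeierstrassCurve.map W (algebraMap K k₀)).map (algebraMap k₀ k) =
          WeierstrassCurve.map W ((algebraMap k₀ k).comp (algebraMap K k₀)) :=
        WeierstrassCurve.map_map W _ _
      rw [← IsScalarTower.algebraMap_eq K k₀ k] at h1
      exact h1
    have hex : ∃ ρ₁' : Endo (WL k W), Dv ρ₁' (algebraMap k₀ k r₀) := by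
      rw [← hE]
      exact ⟨ρ₁, h1⟩
    obtain ⟨ρ₁', h1'⟩ := hex
    have hr' : algebraMap k₀ k r₀ ∉ Set.range (algebraMap ℚ k) := by
      rintro ⟨x, hx⟩
      refine hr0 ⟨x, (algebraMap k₀ k).injective ?_⟩
      rw [← hx]
      simp
    obtain ⟨m, p, q, hm, h⟩ := hD1 k (WL k W) hWk ρ₁' ρ _ r h1' hr hr'
    obtain ⟨ρ', hρ'⟩ := dv_comb hEXW hW0 h0 p q
    refine ⟨m, _, ρ', hm, hρ', ?_⟩
    rw [h]
    simp

end

end Pool.Agent.Helper42.TGX
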