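import Pool.Agent.Helper60.TGX.Defs

/-!
# Project TGX (MP_a41896_nt), part D: the derivatives of the endomorphisms are in one quadratic field; goals

`N(ρ)`: `H(ρ P) = N(ρ) H(P)` (HTR) for a point `P` of positive height over a number field `k' ⊇ k` (NT).  `N` is a multiplicative positive
quadratic form on the ring of the derivatives (QFM, QD).
-/

set_option autoImplicit false

open Polynomial

namespace Pool.Agent.Helper42.TGX

open WeierstrassCurve Height
open Pool.Agent.Helper29.BL Pool.Agent.Helper42.SG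
open Pool.Agent.Helper60.T3 (WL zd IP)

noncomputable section

/-- **QFM**: a multiplicative positive quadratic form. No hypotheses.
PROOF. `H a := (N a : ℝ)` is `IsQuad` (`Helper29.BL`); `T(x, y) := N(x + y) - N x - N y` is biadditive (`IsQuad.polar_add`, `IsQuad.polar_comm`, `Pool/Agent/Helper29/BL/QSN.lean`; over `ℝ`, cast), symmetric, `T(x, x) = 2 N x`, `T(1, 1) = 2`, `T(n • x, y) = n T(x, y)` (`IsQuad.polar_zsmul`). MULTIPLICATIVITY: `T(x a, x b) = N(x) T(a, b)` (distributivity); replace `x` by `x + y`: `T(x a, y b) + T(y a, x b) = T(x, y) T(a, b)`. With `a ↦ a`, `b ↦ 1` and (`x, y`): `T(x a, y) + T(y a, x) = T(x, y) t`, `t := T(a, 1) = N(a+1) - N a - 1`.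
Put `x ↦ a x`: `T(a² x, y) + T(y a, a x) = t T(a x, y)` and `T(a y, a x) = N(a) T(x, y)`; so with `z := a² - t a + N(a)` (`x = 1`, integers act by `zsmul`): `T(z, y) = 0` for all `y`; `y = z`: `2 N(z) = 0`, `z = 0`. -/
def QFM : Prop :=
  ∀ (R : Type) [CommRing R] (N : R → ℤ), N 1 = 1 → (∀ a, N a = 0 → a = 0) → (∀ a, 0 ≤ N a) →
    (∀ a b, N (a * b) = N a * N b) → (∀ a b, N (a + b) + N (a - b) = 2 * N a + 2 * N b) →
    ∀ a : R, a * a - ((N (a + 1) - N a - 1 : ℤ) : R) * a + ((N a : ℤ) : R) = 0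

/-- **QD**: the elements of the ring are in one quadratic field. Hypothesis allowed: QFM.
PROOF. `t(a) := N(a + 1) - N a - 1`, `T(x, y) := N(x + y) - N x - N y` as in QFM (biadditive by the parallelogram law: `IsQuad.polar_add` ..). `a' := 2 a - t(a)`; `t(a') = T(a', 1) = 2 T(a, 1) - t(a) T(1, 1) = 2 t(a) - 2 t(a) = 0` (`T(1, 1) = N 2 - 2 = 2`), so QFM for `a'`: `a'² = - N(a')`. The same for `b' := 2 b - t(b)`. `a' ≠ 0` because `a ∉ ℚ`. If `b' = 0`: `2 b = t(b)`. Otherwise `c := a' b' ≠ 0`, `c² = a'² b'² = N(a') N(b') = N(c)`, QFM for `c`: `c² - t(c) c + N(c) = 0`: `2 N(c) = t(c) c`, `N(c) ≠ 0`, so `t(c) ≠ 0`. Multiply `t(c) a' b' = 2 N(a') N(b')` by `a'`: `- N(a') t(c) b' = 2 N(a') N(b') a'`, `N(a') ≠ 0`: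
`t(c) b' = - 2 N(b') a'`, so `2 t(c) b = t(c) t(b) + 2 N(b') t(a) - 4 N(b') a`. `m := |2 t(c)|` (change the signs of `p, q` if `t(c) < 0`). -/
def QD : Prop :=
  ∀ (k : Type) [Field k] [CharZero k] (R : Subring k) (N : R → ℤ), N 1 = 1 →
    (∀ a, N a = 0 → a = 0) → (∀ a, 0 ≤ N a) → (∀ a b, N (a * b) = N a * N b) →
    (∀ a b, N (a + b) + N (a - b) = 2 * N a + 2 * N b) →
    ∀ a b : R, (a : k) ∉ Set.range (algebraMap ℚ k) →
      ∃ (m : ℕ) (p q : ℤ), m ≠ 0 ∧ (m : k) * b = p + q * a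

/-- numerator and denominator of the duplication -/
def dA {k : Type} [Field k] (W : Affine k) : k[X] :=
  X ^ 4 - C W.b₄ * X ^ 2 - C (2 * W.b₆) * X - C W.b₈

/-- numerator and denominator of the duplication -/
def dB {k : Type} [Field k] (W : Affine k) : k[X] :=
  C 4 * X ^ 3 + C W.b₂ * X ^ 2 + C (2 * W.b₄) * X + C W.b₆

/-- **DUPC**: the duplication. Landed: THX (`Pool.Agent.Helper3.TG.Main.th_THX` or `Helper25/TG/THX.lean`; statement in `Helper3/TG/GoalsTr.lean`), `nzt_ps` (`Helper60/SG2/NZFT.lean`: `ps P ^ 2 = Bf W (xc P)`).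
PROOF. (1) `(48X² + 8b₂X + 32b₄ - b₂²) dA + (12X³ - b₂X² - 10b₄X + b₂b₄ - 27b₆) (- dB) = - Δ` up to sign (see THN in `Helper3/TG/GoalsTr.lean`, `Pool/Agent/Helper83/TG/THN.lean`; unfold the `b_i`, `Δ`; `linear_combination`/`ring` after `C_mul, C_add ..`, with `b_relation : 4b₈ = b₂b₆ - b₄²`), `Δ ≠ 0`: coprime. (2) degrees: `natDegree (dA) = 4`, `natDegree (dB) = 3` (`4 ≠ 0`; `compute_degree`).
(3) `P ≠ 0`, `P + P ≠ 0`: THX with `Q = P`: `TH (x, x, t) = 0`, and `TH(x, x, t) = dA(x) - t dB(x)` (`ring`). (4) `P + P = 0` iff `P = - P` iff `ps P = 0` iff `B(x(P)) = dB(x(P)) = 0` (`P ≠ 0`). -/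
def DUPC : Prop :=
  (∀ (k : Type) [Field k] [CharZero k] (W : Affine k), W.IsElliptic →
    IsCoprime (dA W) (dB W) ∧ (dA W).natDegree = 4 ∧ (dB W).natDegree = 3) ∧
  ∀ (F : Type) [Field F] [CharZero F] [DecidableEq F] (W : Affine F), W.IsElliptic →
    ∀ P : W.Point, P ≠ 0 → (P + P = 0 ↔ eval (xc P) (dB W) = 0) ∧
      (P + P ≠ 0 → xc (P + P) * eval (xc P) (dB W) = eval (xc P) (dA W))

/-- **NT**: a point of positive height over a number field. Hypothesis allowed: DUPC. Landed: HTAB (`Pool/Agent/Helper92/TG/MainH.lean` or the packet file; statement in `Helper92/TG/GoalsX.lean`).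
PROOF. HTAB with `A = dA W`, `B = dB W`: `C` with `logHeight₁ (A(x)/B(x)) ≥ 4 logHeight₁ x - C` for `x ∈ k`, `B(x) ≠ 0`. Let `C₂` bound the heights of the roots of `B` in `k` (finitely many). Choose `x₀ ∈ k` with `logHeight₁ x₀ > max C₂ ((C + 1)/3)` (unbounded: `x₀ = 2^n`, or Northcott in Mathlib: `{x | logHeight₁ x ≤ R}` is finite, `k` is infinite). `k' :=` the splitting field of `X² - Bf W x₀` over `k` (or `AdjoinRoot`; a number field, `Algebra k k'`), `y ∈ k'` with `y² = Bf W x₀` mapped; `P ∈ W(k')` with `xc P = x₀`, `ps P = y` (`nzt_pt` in `Helper60/SG2/NZFT.lean`).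
CLAIM: for all `m`: `2^m P ≠ 0`, `xc (2^m P) = algebraMap x_m`, `x_m ∈ k`, `logHeight₁ x_m > max C₂ ((C+1)/3)`, `logHeight₁ x_(m+1) ≥ logHeight₁ x_m + 1`: DUPC for `2^m P`: `B(x_m) ≠ 0` because the height of `x_m` is `> C₂`; so `2^(m+1) P ≠ 0` and its `x` is the image of `x_(m+1) := A(x_m)/B(x_m)` (`dA (WL k' W) = (dA W).map`), `logHeight₁ x_(m+1) ≥ 4 h - C ≥ h + 1`. So the `x_m` are distinct.
Suppose `H P ≤ 0`: `H P = 0` (`IsQuad.nonneg`), `H (2^m P) = 4^m H P = 0` (`IsQuad.nsmul`), so `hx (2^m P) ≤ c₀` (`CanH.near`): infinitely many elements `algebraMap x_m` of `k'` with `logHeight₁ ≤ c₀`: contradiction to the Northcott property of `k'` (Mathlib `NumberTheory/Height/NumberField.lean`, `Northcott.lean`; `Northcott.finite_le` or similar). -/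
def NT : Prop :=
  ∀ (k : Type) [Field k] [NumberField k] (W : Affine k), W.IsElliptic →
    ∃ (k' : Type) (_ : Field k') (_ : NumberField k') (_ : DecidableEq k') (_ : Algebra k k')
      (P : (WL k' W).Point), ∀ (H : (WL k' W).Point → ℝ) (c₀ : ℝ), CanH (WL k' W) H c₀ →
      0 < H P

end

end Pool.Agent.Helper42.TGX
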