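import Pool.Agent.Helper60.TGX.Defs
import Pool.Agent.Helper29.BL.PS
import Pool.Agent.Helper5.UN.Defs

/-!
# Project TGX (MP_a41896_nt): heights over an extension field (for S_BC)
-/

set_option autoImplicit false

namespace Pool.Agent.Helper42.TGX

open NumberField Height AdmissibleAbsValues Ideal

section

variable {K K' : Type} [Field K] [NumberField K] [Field K'] [NumberField K'] [Algebra K K']

/-- the local degrees of the infinite places over `v` -/
theorem mult_bc (v : InfinitePlace K) [DecidableEq (InfinitePlace K)] :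
    ∑ w ∈ (Finset.univ : Finset (InfinitePlace K')).filter
      (fun w => w.comap (algebraMap K K') = v), w.mult = v.mult * Module.finrank K K' := by
  classical
  rw [← InfinitePlace.sum_inertiaDeg_eq_finrank K K' v, Finset.mul_sum]
  have h1 : (Finset.univ : Finset (InfinitePlace K')).filter
      (fun w => w.comap (algebraMap K K') = v) = (v.placesOver K').toFinset := by
    ext w
    simp only [Finset.mem_filter, Finset.mem_univ, true_and, Set.mem_toFinset]
    constructor
    · rintro rfl
      exact ⟨rfl⟩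
    · intro h
      exact Subtype.ext h.comp_eq
  rw [h1]
  refine Finset.sum_congr rfl fun w hw => ?_
  have hw' : w ∈ v.placesOver K' := Set.mem_toFinset.1 hw
  have hl : w.LiesOver v := hw'
  rw [InfinitePlace.inertiaDeg_eq_finrank, InfinitePlace.mult_mul_finrank]

theorem inf_bc (g : InfinitePlace K → ℝ) :
    ∏ w : InfinitePlace K', g (w.comap (algebraMap K K')) ^ w.mult =
      (∏ v, g v ^ v.mult) ^ Module.finrank K K' := by
  classical
  rw [← Finset.prod_fiberwise (Finset.univ : Finset (InfinitePlace K'))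
    (fun w => w.comap (algebraMap K K')), ← Finset.prod_pow]
  refine Finset.prod_congr rfl fun v _ => ?_
  rw [← pow_mul, ← mult_bc (K' := K') v, ← Finset.prod_pow_eq_pow_sum]
  refine Finset.prod_congr rfl fun w hw => ?_
  rw [(Finset.mem_filter.1 hw).2]

/-- finite places, integral tuples -/
theorem fin_bc {ι : Type} [Finite ι] {x : ι → 𝓞 K} (hx : x ≠ 0) :
    ∏ᶠ w : FinitePlace K', ⨆ i, w (algebraMap K K' (x i)) =
      (∏ᶠ v : FinitePlace K, ⨆ i, v (x i)) ^ Module.finrank K K' := by
  have h1 := absNorm_mul_finprod_finitePlace_eq_one hx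
  have hx' : (fun i => algebraMap (𝓞 K) (𝓞 K') (x i)) ≠ 0 := by
    obtain ⟨i, hi⟩ := Function.ne_iff.1 hx
    refine Function.ne_iff.2 ⟨i, fun h => hi ?_⟩
    exact (injective_iff_map_eq_zero _).1 (FaithfulSMul.algebraMap_injective (𝓞 K) (𝓞 K')) _ h
  have h2 := absNorm_mul_finprod_finitePlace_eq_one hx'
  have h3 : Ideal.span (Set.range fun i => algebraMap (𝓞 K) (𝓞 K') (x i)) =
      (Ideal.span (Set.range x)).map (algebraMap (𝓞 K) (𝓞 K')) := by
    rw [Ideal.map_span, ← Set.range_comp]
    rfl
  rw [h3, Ideal.absNorm_algebraMap, ← IsFractionRing.finrank_eq (𝓞 K) K (𝓞 K') K'] at h2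
  have h4 : ((Ideal.span (Set.range x)).absNorm : ℝ) ≠ 0 := left_ne_zero_of_mul_eq_one h1
  have h5 : ∀ i, (algebraMap (𝓞 K') K') (algebraMap (𝓞 K) (𝓞 K') (x i)) =
      algebraMap K K' (x i) := fun i => rfl
  have h6 : ((Ideal.span (Set.range x)).absNorm : ℝ) ^ Module.finrank K K' *
      ∏ᶠ w : FinitePlace K', ⨆ i, w (algebraMap K K' (x i)) = 1 := by
    rw [← h2]
    push_cast
    rfl
  have h7 : ((Ideal.span (Set.range x)).absNorm : ℝ) ^ Module.finrank K K' *
      (∏ᶠ v : FinitePlace K, ⨆ i, v (x i)) ^ Module.finrank K K' = 1 := by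
    rw [← mul_pow, h1, one_pow]
  exact mul_left_cancel₀ (pow_ne_zero _ h4) (h6.trans h7.symm)

theorem mulHeight_bc {ι : Type} [Finite ι] (x : ι → K) :
    mulHeight (fun i => algebraMap K K' (x i)) = mulHeight x ^ Module.finrank K K' := by
  classical
  rcases eq_or_ne x 0 with rfl | hx
  · simp only [Pi.zero_apply, map_zero]
    rw [show (fun _ : ι => (0 : K')) = 0 from rfl, mulHeight_zero, mulHeight_zero, one_pow]
  have := Fintype.ofFinite ι
  obtain ⟨b, hb⟩ := IsLocalization.exist_integer_multiples_of_finite (nonZeroDivisors (𝓞 K)) x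
  choose y hy using hb
  have hb0 : ((b : 𝓞 K) : K) ≠ 0 := by
    have := nonZeroDivisors.coe_ne_zero b
    exact_mod_cast this
  have hy' : ∀ i, ((y i : 𝓞 K) : K) = (b : 𝓞 K) * x i := fun i => by
    rw [← Algebra.smul_def]
    exact hy i
  have hy0 : y ≠ 0 := by
    obtain ⟨i, hi⟩ := Function.ne_iff.1 hx
    refine Function.ne_iff.2 ⟨i, fun h => ?_⟩
    have := hy' i
    rw [h] at this
    simp only [Pi.zero_apply, map_zero] at this
    exact mul_ne_zero hb0 hi this.symm
  have e1 : (fun i => ((y i : 𝓞 K) : K)) = ((b : 𝓞 K) : K) • x := by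
    funext i
    rw [hy' i]
    rfl
  have e2 : (fun i => algebraMap K K' ((y i : 𝓞 K) : K)) =
      (algebraMap K K' ((b : 𝓞 K) : K)) • (fun i => algebraMap K K' (x i)) := by
    funext i
    rw [hy' i, map_mul]
    rfl
  have hb0' : algebraMap K K' ((b : 𝓞 K) : K) ≠ 0 := fun h =>
    hb0 ((injective_iff_map_eq_zero _).1 (algebraMap K K').injective _ h)
  have hy1 : (fun i => ((y i : 𝓞 K) : K)) ≠ 0 := by
    obtain ⟨i, hi⟩ := Function.ne_iff.1 hy0
    exact Function.ne_iff.2 ⟨i, by simpa using hi⟩
  have hy2 : (fun i => algebraMap K K' ((y i : 𝓞 K) : K)) ≠ 0 := by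
    obtain ⟨i, hi⟩ := Function.ne_iff.1 hy0
    exact Function.ne_iff.2 ⟨i, by simpa using hi⟩
  rw [← mulHeight_smul_eq_mulHeight x hb0, ← mulHeight_smul_eq_mulHeight _ hb0', ← e1, ← e2,
    NumberField.mulHeight_eq hy1, NumberField.mulHeight_eq hy2, mul_pow, fin_bc hy0]
  congr 1
  exact inf_bc (K' := K') fun v => ⨆ i, v ((y i : 𝓞 K) : K)

theorem logHeight_bc {ι : Type} [Finite ι] (x : ι → K) :
    logHeight (fun i => algebraMap K K' (x i)) = Module.finrank K K' * logHeight x := by
  rw [logHeight_eq_log_mulHeight, mulHeight_bc, Real.log_pow, logHeight_eq_log_mulHeight]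

theorem logHeight₁_bc (x : K) :
    logHeight₁ (algebraMap K K' x) = Module.finrank K K' * logHeight₁ x := by
  rw [logHeight₁_eq_logHeight, logHeight₁_eq_logHeight, ← logHeight_bc]
  congr 1
  funext i
  fin_cases i <;> simp

open Pool.Agent.Helper29.BL (PS FS Mv PS_sub PS_zero FS_log_iSup iSup_abv_pos Mv_pos)
open Pool.Agent.Helper5.UN (cH)

/-- the tuple of the monomials of the numerator and of the values -/
def tup {k : Type} [Field k] {σ ι : Type} [Fintype σ] (D : ℕ) (x : σ → k) (b : ι → k) :
    (σ → Fin 2) ⊕ ι → k :=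
  Sum.elim (fun m => ∏ i, (![1, x i ^ D] : Fin 2 → k) (m i)) b

theorem iSup_tup {k : Type} [Field k] {σ ι : Type} [Fintype σ] [Finite ι] [Nonempty ι]
    (v : AbsoluteValue k ℝ) (D : ℕ) (x : σ → k) (b : ι → k) :
    ⨆ s, v (tup D x b s) = max ((∏ i, Mv v (x i)) ^ D) (⨆ j, v (b j)) := by
  have h1 : (∏ i, Mv v (x i)) ^ D =
      ⨆ m : σ → Fin 2, v (∏ i, (![1, x i ^ D] : Fin 2 → k) (m i)) := by
    simp_rw [map_prod]
    rw [Real.iSup_prod_eq_prod_iSup_of_nonnegHomClass, ← Finset.prod_pow]
    refine Finset.prod_congr rfl fun i _ => ?_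
    unfold Mv
    apply le_antisymm
    · rcases max_cases (1 : ℝ) (v (x i)) with ⟨h, -⟩ | ⟨h, -⟩
      · rw [h, one_pow]
        exact le_trans (by simp) (Finite.le_ciSup (fun j => v ((![1, x i ^ D] : Fin 2 → k) j)) 0)
      · rw [h]
        exact le_trans (by simp) (Finite.le_ciSup (fun j => v ((![1, x i ^ D] : Fin 2 → k) j)) 1)
    · refine ciSup_le fun j => ?_
      fin_cases j
      · simpa using one_le_pow₀ (le_max_left (1 : ℝ) (v (x i)))
      · simpa using pow_le_pow_left₀ (v.nonneg _) (le_max_right (1 : ℝ) (v (x i))) D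
  rw [h1]
  apply le_antisymm
  · refine ciSup_le fun s => ?_
    rcases s with m | j
    · exact le_max_of_le_left
        (Finite.le_ciSup (fun m : σ → Fin 2 => v (∏ i, (![1, x i ^ D] : Fin 2 → k) (m i))) m)
    · exact le_max_of_le_right (Finite.le_ciSup (fun j => v (b j)) j)
  · refine max_le (ciSup_le fun m => ?_) (ciSup_le fun j => ?_)
    · exact Finite.le_ciSup (fun s => v (tup D x b s)) (Sum.inl m)
    · exact Finite.le_ciSup (fun s => v (tup D x b s)) (Sum.inr j)

theorem posLog_div {A B : ℝ} (hA : 0 < A) (hB : 0 < B) :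
    Real.posLog (A / B) = Real.log (max A B) - Real.log B := by
  unfold Real.posLog
  rw [Real.log_div hA.ne' hB.ne']
  rcases le_total A B with h | h
  · rw [max_eq_right h, sub_self, max_eq_left]
    have := Real.log_le_log hA h
    linarith
  · rw [max_eq_left h, max_eq_right]
    have := Real.log_le_log hB h
    linarith

theorem cH_eq {k : Type} [Field k] [AdmissibleAbsValues k] {σ ι : Type} [Fintype σ] [Finite ι]
    (D : ℕ) (f : ι → MvPolynomial σ k) (x : σ → k)
    (hb : (fun j => MvPolynomial.eval x (f j)) ≠ 0) :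
    cH D f x = logHeight (tup D x fun j => MvPolynomial.eval x (f j)) -
      logHeight (fun j => MvPolynomial.eval x (f j)) := by
  have hne : Nonempty ι := (Function.ne_iff.1 hb).nonempty
  set b := fun j => MvPolynomial.eval x (f j) with hbd
  have ht : tup D x b ≠ 0 := by
    obtain ⟨j, hj⟩ := Function.ne_iff.1 hb
    exact Function.ne_iff.2 ⟨Sum.inr j, hj⟩
  rw [← Pool.Agent.Helper29.BL.PS_log_iSup ht, ← Pool.Agent.Helper29.BL.PS_log_iSup hb,
    ← PS_sub (FS_log_iSup ht) (FS_log_iSup hb)]
  unfold cH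
  congr 1
  funext v
  have hA : 0 < (∏ i, Mv v (x i)) ^ D := pow_pos (Finset.prod_pos fun i _ => Mv_pos v _) D
  rw [posLog_div hA (iSup_abv_pos v hb), iSup_tup]

theorem cH_zero {k : Type} [Field k] [AdmissibleAbsValues k] {σ ι : Type} [Fintype σ] [Finite ι]
    (D : ℕ) (f : ι → MvPolynomial σ k) (x : σ → k)
    (hb : (fun j => MvPolynomial.eval x (f j)) = 0) : cH D f x = 0 := by
  unfold cH
  have : (fun v : AbsoluteValue k ℝ => Real.posLog ((∏ i, Mv v (x i)) ^ D /
      ⨆ j, v (MvPolynomial.eval x (f j)))) = fun _ => 0 := by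
    funext v
    have h0 : ∀ j, v (MvPolynomial.eval x (f j)) = 0 := fun j => by
      rw [show MvPolynomial.eval x (f j) = 0 from congrFun hb j, map_zero]
    simp only [h0]
    simp
  rw [this, PS_zero]

theorem eval_bc {σ : Type} (x : σ → K) (p : MvPolynomial σ K) :
    MvPolynomial.eval (fun i => algebraMap K K' (x i)) (MvPolynomial.map (algebraMap K K') p) =
      algebraMap K K' (MvPolynomial.eval x p) := by
  induction p using MvPolynomial.induction_on with
  | C a => simp
  | add p q hp hq => simp only [map_add, hp, hq]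
  | mul_X p i hp => simp only [map_mul, hp, MvPolynomial.map_X, MvPolynomial.eval_X]

/-- **the height with respect to the centre over an extension field** -/
theorem cH_bc {σ ι : Type} [Fintype σ] [Finite ι] (D : ℕ) (f : ι → MvPolynomial σ K)
    (x : σ → K) :
    cH D (fun j => MvPolynomial.map (algebraMap K K') (f j)) (fun i => algebraMap K K' (x i)) =
      Module.finrank K K' * cH D f x := by
  by_cases hb : (fun j => MvPolynomial.eval x (f j)) = 0
  · rw [cH_zero D f x hb, cH_zero, mul_zero]
    funext j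
    rw [eval_bc, show MvPolynomial.eval x (f j) = 0 from congrFun hb j, map_zero]
    rfl
  · have hb' : (fun j => MvPolynomial.eval (fun i => algebraMap K K' (x i))
        (MvPolynomial.map (algebraMap K K') (f j))) ≠ 0 := by
      obtain ⟨j, hj⟩ := Function.ne_iff.1 hb
      refine Function.ne_iff.2 ⟨j, ?_⟩
      rw [eval_bc]
      exact fun h => hj ((injective_iff_map_eq_zero _).1 (algebraMap K K').injective _ h)
    rw [cH_eq D f x hb, cH_eq _ _ _ hb', mul_sub, ← logHeight_bc (K' := K'),
      ← logHeight_bc (K' := K')]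
    congr 2
    · funext s
      rcases s with m | j
      · simp only [tup, Sum.elim_inl, map_prod]
        refine Finset.prod_congr rfl fun i _ => ?_
        generalize m i = c
        fin_cases c <;> simp
      · simp only [tup, Sum.elim_inr]
        exact eval_bc x (f j)
    · funext j
      exact eval_bc x (f j)

end

end Pool.Agent.Helper42.TGX
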