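import Pool.Agent.Helper42.TGX.AsmD
import Pool.Agent.Helper23.TGX.QD
import Pool.Agent.Helper66.TGX.QFM
import Pool.Agent.Helper57.TGX.DUPC
import Pool.Agent.Helper82.TGX.NT
import Pool.Agent.Helper92.TGX.EXW
import Pool.Agent.Helper92.TGX.ENBC

/-!
# Project TGX (MP_a41896_nt), part D: S_D1 and S_D2 without hypotheses, 
-/

set_option autoImplicit false

namespace Pool.Agent.Helper42.TGX

open Pool.Agent.Helper60.TGX (S_D1 S_D2 S_EXW S_ENBC)

theorem th_QD : QD := Pool.Agent.Helper23.TGX.t_QD Pool.Agent.Helper66.TGX.t_QFM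

theorem nt_D1 (hNT : NT) : S_D1 :=
  d1 th_QD hNT Pool.Agent.Helper92.TG.MainH.th_HTR Pool.Agent.Helper92.TGX.th_EXW
    Pool.Agent.Helper92.TGX.th_ENBC

theorem nt_D2 (hNT : NT) : S_D2 :=
  d2 (nt_D1 hNT) Pool.Agent.Helper92.TGX.th_EXW Pool.Agent.Helper92.TGX.th_ENBC

theorem th_NT : NT := Pool.Agent.Helper82.TGX.t_NT Pool.Agent.Helper57.TGX.t_DUPC

/-- **quadratic field** -/
theorem th_D1 : S_D1 := nt_D1 th_NT

/-- **a finite extension with all derivatives** -/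
theorem th_D2 : S_D2 := nt_D2 th_NT

end Pool.Agent.Helper42.TGX
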